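import Mathlib
import Pool.Agent.helper82.SB.Shared

/-! [SB-K] Orientation preserving affine maps preserve the knot type. helper38 -/

set_option autoImplicit false

namespace Pool.Agent.helper82.SB

open Matrix Filter Topology

namespace KK

theorem sameRay_of_mulVec {M : Matrix (Fin 3) (Fin 3) ℝ} (hM : M.det ≠ 0) {x y : E3}
    (h : SameRay ℝ (M *ᵥ x) (M *ᵥ y)) : SameRay ℝ x y := by
  have hu : IsUnit M.det := isUnit_iff_ne_zero.2 hM
  have h' := h.map (M⁻¹).mulVecLin
  simp only [Matrix.mulVecLin_apply, Matrix.mulVec_mulVec, Matrix.nonsing_inv_mul _ hu,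
    Matrix.one_mulVec] at h'
  exact h'

theorem seg_of_mulVec {M : Matrix (Fin 3) (Fin 3) ℝ} (hM : M.det ≠ 0) {x y : E3} {z : E3}
    (h : z ∈ segment ℝ (M *ᵥ x) (M *ᵥ y)) : M⁻¹ *ᵥ z ∈ segment ℝ x y := by
  have hu : IsUnit M.det := isUnit_iff_ne_zero.2 hM
  obtain ⟨a, b, ha, hb, hab, rfl⟩ := h
  refine ⟨a, b, ha, hb, hab, ?_⟩
  rw [Matrix.mulVec_add, Matrix.mulVec_smul, Matrix.mulVec_smul, Matrix.mulVec_mulVec,
    Matrix.mulVec_mulVec, Matrix.nonsing_inv_mul _ hu, Matrix.one_mulVec, Matrix.one_mulVec]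

/-- image of a polygonal knot under an invertible matrix -/
def mapM (K : PolyKnot) (M : Matrix (Fin 3) (Fin 3) ℝ) (hM : M.det ≠ 0) : PolyKnot where
  n := K.n
  P := fun i => M *ᵥ K.P i
  three := K.three
  per := fun i => by rw [K.per]
  corner := fun i h => by
    rw [← Matrix.mulVec_sub, ← Matrix.mulVec_sub] at h
    exact K.corner i (sameRay_of_mulVec hM h)
  disj := fun i j h1 h2 => by
    rw [Set.disjoint_left]
    intro z hz hz'
    exact Set.disjoint_left.1 (K.disj i j h1 h2) (seg_of_mulVec hM hz) (seg_of_mulVec hM hz')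

/-- `L` is the image of `K` under `M` -/
def Im (M : Matrix (Fin 3) (Fin 3) ℝ) (K L : PolyKnot) : Prop := L.n = K.n ∧ ∀ i, L.P i = M *ᵥ K.P i

theorem im_mapM (K : PolyKnot) (M : Matrix (Fin 3) (Fin 3) ℝ) (hM : M.det ≠ 0) :
    Im M K (mapM K M hM) := ⟨rfl, fun _ => rfl⟩

theorem im_unique {M : Matrix (Fin 3) (Fin 3) ℝ} {K L L' : PolyKnot} (h : Im M K L) (h' : Im M K L') :
    L = L' :=
  PolyKnot.ext' (by rw [h.1, h'.1]) (funext fun i => by rw [h.2, h'.2])

theorem im_one (K : PolyKnot) : Im 1 K K := ⟨rfl, fun i => by rw [Matrix.one_mulVec]⟩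

theorem im_mul {M N : Matrix (Fin 3) (Fin 3) ℝ} {K L L' : PolyKnot} (h : Im N K L) (h' : Im M L L') :
    Im (M * N) K L' :=
  ⟨by rw [h'.1, h.1], fun i => by rw [h'.2, h.2, Matrix.mulVec_mulVec]⟩

/-- equivalence is preserved by invertible matrices -/
theorem im_equiv {M : Matrix (Fin 3) (Fin 3) ℝ} (hM : M.det ≠ 0) {K L : PolyKnot}
    (h : Equivalent K L) : Equivalent (mapM K M hM) (mapM L M hM) := by
  induction h with
  | rel K L h =>
    cases h with
    | rotate K L hn h =>
      exact (Move.rotate (mapM K M hM) (mapM L M hM) hn (fun i => by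
        show M *ᵥ L.P i = M *ᵥ K.P (i + 1)
        rw [h])).equivalent
    | subdivide K L hn h h' =>
      refine (Move.subdivide (mapM K M hM) (mapM L M hM) hn (fun i h0 h1 => ?_) ?_).equivalent
      · show M *ᵥ L.P i = M *ᵥ K.P i
        rw [h i h0 h1]
      · show M *ᵥ L.P K.n ∈ openSegment ℝ (M *ᵥ K.P (K.n - 1)) (M *ᵥ K.P K.n)
        obtain ⟨a, b, ha, hb, hab, e⟩ := h'
        refine ⟨a, b, ha, hb, hab, ?_⟩
        rw [← e, Matrix.mulVec_add, Matrix.mulVec_smul, Matrix.mulVec_smul]
    | isotopy F m hn hc =>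
      refine (Move.isotopy (fun t => mapM (F t) M hM) m (fun t => hn t) (fun i => ?_)).equivalent
      show Continuous fun t => M *ᵥ (F t).P i
      exact Continuous.matrix_mulVec continuous_const (hc i)
  | refl K => exact Equivalent.refl _
  | symm K L _ ih => exact ih.symm
  | trans K L N _ _ ih1 ih2 => exact ih1.trans ih2

/-- a path of invertible matrices -/
theorem equiv_of_path (M : ℝ → Matrix (Fin 3) (Fin 3) ℝ) (hc : Continuous M)
    (hd : ∀ t ∈ Set.Icc (0:ℝ) 1, (M t).det ≠ 0) (h0 : M 0 = 1) {K L : PolyKnot} (h : Im (M 1) K L) :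
    Equivalent K L := by
  let F : unitInterval → PolyKnot := fun t => mapM K (M t) (hd t t.2)
  have e0 : F 0 = K := by
    apply im_unique (M := 1) (K := K) _ (im_one K)
    have := im_mapM K (M ((0 : unitInterval) : ℝ)) (hd _ (0 : unitInterval).2)
    rw [← h0]
    exact this
  have e1 : F 1 = L := im_unique (im_mapM K _ (hd _ (1 : unitInterval).2)) h
  have := (Move.isotopy F K.n (fun t => rfl) (fun i => by
    show Continuous fun t : unitInterval => (M t) *ᵥ K.P i
    exact Continuous.matrix_mulVec (hc.comp continuous_subtype_val) continuous_const)).equivalent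
  rw [e0, e1] at this
  exact this

/-- the reflection -/
def R : Matrix (Fin 3) (Fin 3) ℝ := diagonal ![-1, 1, 1]

theorem det_R : R.det = -1 := by
  simp [R, Matrix.det_diagonal, Fin.prod_univ_three]

theorem R_mul_R : R * R = 1 := by
  rw [R, Matrix.diagonal_mul_diagonal, ← Matrix.diagonal_one]
  congr 1
  ext i
  fin_cases i <;> simp

/-- the property for induction -/
def Good (M : Matrix (Fin 3) (Fin 3) ℝ) : Prop :=
  (0 < M.det → ∀ K L, Im M K L → Equivalent K L) ∧
  (M.det < 0 → ∀ K K' L, Im R K K' → Im M K L → Equivalent K' L)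

theorem good_mul {A B : Matrix (Fin 3) (Fin 3) ℝ} (hA : A.det ≠ 0) (hB : B.det ≠ 0) (gA : Good A)
    (gB : Good B) : Good (A * B) := by
  have hRne : R.det ≠ 0 := by rw [det_R]; norm_num
  constructor
  · intro h K L hKL
    rw [Matrix.det_mul] at h
    have hB' := im_mapM K B hB
    have hL : L = mapM (mapM K B hB) A hA := im_unique hKL (im_mul hB' (im_mapM _ A hA))
    rcases lt_or_gt_of_ne hB with hB0 | hB0
    · -- both negative
      have hA0 : A.det < 0 := by nlinarith
      have e1 := gB.2 hB0 K (mapM K R hRne) (mapM K B hB) (im_mapM _ _ _) hB'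
      have e2 := gA.2 hA0 (mapM K B hB) (mapM (mapM K B hB) R hRne) L (im_mapM _ _ _)
        (hL ▸ im_mapM _ A hA)
      have e3 := im_equiv hRne e1
      have e4 : mapM (mapM K R hRne) R hRne = K := by
        apply im_unique (M := 1) (K := K) _ (im_one K)
        rw [← R_mul_R]
        exact im_mul (im_mapM _ _ _) (im_mapM _ _ _)
      rw [e4] at e3
      exact e3.trans e2
    · have hA0 : 0 < A.det := by
        by_contra hc
        have : A.det ≤ 0 := not_lt.1 hc
        nlinarith
      have e1 := gB.1 hB0 K (mapM K B hB) hB'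
      have e2 := gA.1 hA0 (mapM K B hB) L (hL ▸ im_mapM _ A hA)
      exact e1.trans e2
  · intro h K K' L hKK' hKL
    rw [Matrix.det_mul] at h
    have hB' := im_mapM K B hB
    have hL : L = mapM (mapM K B hB) A hA := im_unique hKL (im_mul hB' (im_mapM _ A hA))
    have hK' : K' = mapM K R hRne := im_unique hKK' (im_mapM _ _ _)
    rcases lt_or_gt_of_ne hB with hB0 | hB0
    · -- B negative, A positive
      have hA0 : 0 < A.det := by
        by_contra hc
        have : A.det ≤ 0 := not_lt.1 hc
        nlinarith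
      have e1 := gB.2 hB0 K K' (mapM K B hB) hKK' hB'
      have e2 := gA.1 hA0 (mapM K B hB) L (hL ▸ im_mapM _ A hA)
      exact e1.trans e2
    · have hA0 : A.det < 0 := by
        by_contra hc
        have : 0 ≤ A.det := not_lt.1 hc
        nlinarith
      have e1 := gB.1 hB0 K (mapM K B hB) hB'
      have e2 := gA.2 hA0 (mapM K B hB) (mapM (mapM K B hB) R hRne) L (im_mapM _ _ _)
        (hL ▸ im_mapM _ A hA)
      have e3 := im_equiv hRne e1
      rw [hK']
      exact e3.trans e2

theorem good_R : Good R := by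
  constructor
  · intro h; rw [det_R] at h; norm_num at h
  · intro _ K K' L h1 h2
    rw [im_unique h1 h2]; exact Equivalent.refl _

/-- a path inside the matrices of positive determinant -/
theorem good_of_path (M : ℝ → Matrix (Fin 3) (Fin 3) ℝ) (hc : Continuous M)
    (hd : ∀ t ∈ Set.Icc (0:ℝ) 1, 0 < (M t).det) (h0 : M 0 = 1) : Good (M 1) := by
  constructor
  · intro _ K L h
    exact equiv_of_path M hc (fun t ht => (hd t ht).ne') h0 h
  · intro h
    have := hd 1 (by norm_num)
    linarith

theorem good_one : Good 1 := good_of_path (fun _ => 1) continuous_const (by simp) rfl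

theorem good_transvection (t : TransvectionStruct (Fin 3) ℝ) : Good t.toMatrix := by
  have h := good_of_path (fun s : ℝ => transvection t.i t.j (s * t.c)) (by
      unfold transvection
      refine continuous_const.add ?_
      refine continuous_matrix (fun i j => ?_)
      simp only [Matrix.single_apply]
      by_cases h : t.i = i ∧ t.j = j
      · simp only [h, and_self, if_true]; fun_prop
      · simp only [h, if_false]; fun_prop)
    (fun s _ => by
      show 0 < (transvection t.i t.j (s * t.c)).det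
      rw [det_transvection_of_ne _ _ t.hij]; norm_num) (by
      show transvection t.i t.j (0 * t.c) = 1
      rw [zero_mul, transvection_zero])
  have e : t.toMatrix = transvection t.i t.j (1 * t.c) := by
    rw [one_mul]; rfl
  rw [e]; exact h

theorem good_pos_diag (d : Fin 3 → ℝ) (hd : ∀ i, 0 < d i) : Good (diagonal d) := by
  have h := good_of_path (fun s : ℝ => diagonal (fun i => 1 - s + s * d i)) (by
      apply Continuous.matrix_diagonal
      fun_prop)
    (fun s hs => by
      rw [Matrix.det_diagonal]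
      apply Finset.prod_pos
      intro i _
      have := hd i
      rcases eq_or_lt_of_le hs.1 with h | h
      · rw [← h]; norm_num
      · have : 0 < s * d i := by positivity
        linarith [hs.2]) (by
      ext i j
      simp [Matrix.one_apply, Matrix.diagonal_apply])
  have e : (diagonal d : Matrix (Fin 3) (Fin 3) ℝ) = diagonal (fun i => 1 - 1 + 1 * d i) := by
    congr 1; ext i; ring
  rw [e]; exact h

theorem good_rot01 : Good (diagonal ![-1, -1, 1]) := by
  have h := good_of_path (fun s : ℝ => !![Real.cos (Real.pi * s), -Real.sin (Real.pi * s), 0;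
      Real.sin (Real.pi * s), Real.cos (Real.pi * s), 0; 0, 0, 1]) (by
      refine continuous_matrix (fun i j => ?_)
      fin_cases i <;> fin_cases j <;> simp <;> fun_prop)
    (fun s _ => by
      rw [Matrix.det_fin_three]
      simp
      nlinarith [Real.sin_sq_add_cos_sq (Real.pi * s)]) (by
      ext i j
      fin_cases i <;> fin_cases j <;> simp)
  have e : (diagonal ![-1, -1, 1] : Matrix (Fin 3) (Fin 3) ℝ) =
      !![Real.cos (Real.pi * 1), -Real.sin (Real.pi * 1), 0;
      Real.sin (Real.pi * 1), Real.cos (Real.pi * 1), 0; 0, 0, 1] := by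
    ext i j
    fin_cases i <;> fin_cases j <;> simp
  rw [e]; exact h

theorem good_rot02 : Good (diagonal ![-1, 1, -1]) := by
  have h := good_of_path (fun s : ℝ => !![Real.cos (Real.pi * s), 0, -Real.sin (Real.pi * s);
      0, 1, 0; Real.sin (Real.pi * s), 0, Real.cos (Real.pi * s)]) (by
      refine continuous_matrix (fun i j => ?_)
      fin_cases i <;> fin_cases j <;> simp <;> fun_prop)
    (fun s _ => by
      rw [Matrix.det_fin_three]
      simp
      nlinarith [Real.sin_sq_add_cos_sq (Real.pi * s)]) (by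
      ext i j
      fin_cases i <;> fin_cases j <;> simp)
  have e : (diagonal ![-1, 1, -1] : Matrix (Fin 3) (Fin 3) ℝ) =
      !![Real.cos (Real.pi * 1), 0, -Real.sin (Real.pi * 1);
      0, 1, 0; Real.sin (Real.pi * 1), 0, Real.cos (Real.pi * 1)] := by
    ext i j
    fin_cases i <;> fin_cases j <;> simp
  rw [e]; exact h

theorem diag_ne {d : Fin 3 → ℝ} (hd : ∀ i, d i ≠ 0) : (diagonal d).det ≠ 0 := by
  rw [Matrix.det_diagonal]
  exact Finset.prod_ne_zero_iff.2 (fun i _ => hd i)

theorem good_diag_mul {d e : Fin 3 → ℝ} (hd : ∀ i, d i ≠ 0) (he : ∀ i, e i ≠ 0)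
    (gd : Good (diagonal d)) (ge : Good (diagonal e)) : Good (diagonal (fun i => d i * e i)) := by
  rw [← Matrix.diagonal_mul_diagonal]
  exact good_mul (diag_ne hd) (diag_ne he) gd ge

theorem good_sign (a b c : ℝ) (ha : a = 1 ∨ a = -1) (hb : b = 1 ∨ b = -1) (hc : c = 1 ∨ c = -1) :
    Good (diagonal ![a, b, c]) := by
  have h1 : Good (diagonal ![-1, 1, 1]) := good_R
  have h2 := good_rot01
  have h3 := good_rot02
  have n1 : ∀ i, (![-1, 1, 1] : Fin 3 → ℝ) i ≠ 0 := by intro i; fin_cases i <;> simp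
  have n2 : ∀ i, (![-1, -1, 1] : Fin 3 → ℝ) i ≠ 0 := by intro i; fin_cases i <;> simp
  have n3 : ∀ i, (![-1, 1, -1] : Fin 3 → ℝ) i ≠ 0 := by intro i; fin_cases i <;> simp
  have h12 := good_diag_mul n1 n2 h1 h2
  have h13 := good_diag_mul n1 n3 h1 h3
  have h23 := good_diag_mul n2 n3 h2 h3
  have e12 : (fun i => (![-1, 1, 1] : Fin 3 → ℝ) i * (![-1, -1, 1] : Fin 3 → ℝ) i) = ![1, -1, 1] := by
    ext i; fin_cases i <;> simp
  have e13 : (fun i => (![-1, 1, 1] : Fin 3 → ℝ) i * (![-1, 1, -1] : Fin 3 → ℝ) i) = ![1, 1, -1] := by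
    ext i; fin_cases i <;> simp
  have e23 : (fun i => (![-1, -1, 1] : Fin 3 → ℝ) i * (![-1, 1, -1] : Fin 3 → ℝ) i) = ![1, -1, -1] := by
    ext i; fin_cases i <;> simp
  rw [e12] at h12
  rw [e13] at h13
  rw [e23] at h23
  have n23 : ∀ i, (![1, -1, -1] : Fin 3 → ℝ) i ≠ 0 := by intro i; fin_cases i <;> simp
  have h123 := good_diag_mul n1 n23 h1 h23
  have e123 : (fun i => (![-1, 1, 1] : Fin 3 → ℝ) i * (![1, -1, -1] : Fin 3 → ℝ) i)
      = ![-1, -1, -1] := by
    ext i; fin_cases i <;> simp
  rw [e123] at h123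
  have h0 : Good (diagonal ![1, 1, 1]) := by
    have : (diagonal ![1, 1, 1] : Matrix (Fin 3) (Fin 3) ℝ) = 1 := by
      ext i j
      fin_cases i <;> fin_cases j <;> simp
    rw [this]; exact good_one
  rcases ha with rfl | rfl <;> rcases hb with rfl | rfl <;> rcases hc with rfl | rfl
  · exact h0
  · exact h13
  · exact h12
  · exact h23
  · exact h1
  · exact h3
  · exact h2
  · exact h123

theorem good_diag (d : Fin 3 → ℝ) (hd : (diagonal d).det ≠ 0) : Good (diagonal d) := by
  have hd' : ∀ i, d i ≠ 0 := by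
    rw [Matrix.det_diagonal, Finset.prod_ne_zero_iff] at hd
    exact fun i => hd i (Finset.mem_univ _)
  have hs : ∀ x : ℝ, x ≠ 0 → ∃ s : ℝ, (s = 1 ∨ s = -1) ∧ |x| * s = x := by
    intro x hx
    rcases lt_or_gt_of_ne hx with h | h
    · exact ⟨-1, Or.inr rfl, by rw [abs_of_neg h]; ring⟩
    · exact ⟨1, Or.inl rfl, by rw [abs_of_pos h]; ring⟩
  obtain ⟨a, ha, ha'⟩ := hs _ (hd' 0)
  obtain ⟨b, hb, hb'⟩ := hs _ (hd' 1)
  obtain ⟨c, hc, hc'⟩ := hs _ (hd' 2)
  have g1 := good_pos_diag (fun i => |d i|) (fun i => abs_pos.2 (hd' i))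
  have g2 := good_sign a b c ha hb hc
  have n1 : ∀ i, (fun i => |d i|) i ≠ 0 := fun i => (abs_pos.2 (hd' i)).ne'
  have nn : ∀ s : ℝ, (s = 1 ∨ s = -1) → s ≠ 0 := by
    rintro s (rfl | rfl) <;> norm_num
  have n2 : ∀ i, (![a, b, c] : Fin 3 → ℝ) i ≠ 0 := by
    intro i
    fin_cases i
    · exact nn a ha
    · exact nn b hb
    · exact nn c hc
  have g := good_diag_mul n1 n2 g1 g2
  have e : (fun i => (fun i => |d i|) i * (![a, b, c] : Fin 3 → ℝ) i) = d := by
    ext i
    fin_cases i
    · exact ha'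
    · exact hb'
    · exact hc'
  rw [e] at g
  exact g

theorem good_all (M : Matrix (Fin 3) (Fin 3) ℝ) (hM : M.det ≠ 0) : Good M :=
  Matrix.diagonal_transvection_induction_of_det_ne_zero Good M hM good_diag good_transvection
    (fun _ _ => good_mul)

/-- translation of a knot -/
def trans (K : PolyKnot) (b : E3) : PolyKnot where
  n := K.n
  P := fun i => K.P i + b
  three := K.three
  per := fun i => by rw [K.per]
  corner := fun i h => by
    rw [add_sub_add_right_eq_sub, add_sub_add_right_eq_sub] at h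
    exact K.corner i h
  disj := fun i j h1 h2 => by
    rw [Set.disjoint_left]
    intro z hz hz'
    have key : ∀ x y : E3, z ∈ segment ℝ (x + b) (y + b) → z - b ∈ segment ℝ x y := by
      rintro x y ⟨s, t, hs, ht, hst, rfl⟩
      refine ⟨s, t, hs, ht, hst, ?_⟩
      have : b = s • b + t • b := by rw [← add_smul, hst, one_smul]
      rw [smul_add, smul_add]
      nth_rewrite 3 [this]
      abel
    exact Set.disjoint_left.1 (K.disj i j h1 h2) (key _ _ hz) (key _ _ hz')

theorem trans_equiv (K : PolyKnot) (b : E3) : Equivalent K (trans K b) := by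
  have e0 : trans K (((0 : unitInterval) : ℝ) • b) = K := by
    refine PolyKnot.ext' (K := trans K (((0 : unitInterval) : ℝ) • b)) (L := K) rfl ?_
    funext i
    show K.P i + (0 : ℝ) • b = K.P i
    rw [zero_smul, add_zero]
  have e1 : trans K (((1 : unitInterval) : ℝ) • b) = trans K b := by
    refine PolyKnot.ext' (K := trans K (((1 : unitInterval) : ℝ) • b)) (L := trans K b) rfl ?_
    funext i
    show K.P i + (1 : ℝ) • b = K.P i + b
    rw [one_smul]
  have := (Move.isotopy (fun t : unitInterval => trans K ((t : ℝ) • b)) K.n (fun t => rfl)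
    (fun i => by
      show Continuous fun t : unitInterval => K.P i + (t : ℝ) • b
      fun_prop)).equivalent
  rw [e0, e1] at this
  exact this

end KK

open KK

/-- SB-K. Orientation preserving affine maps preserve the knot type. -/
theorem exists_affine (K : PolyKnot) (A : E3 →ₗ[ℝ] E3) (hA : 0 < LinearMap.det A) (b : E3) :
    ∃ L : PolyKnot, L.n = K.n ∧ (∀ i, L.P i = A (K.P i) + b) ∧ Equivalent K L ∧
      ∀ M, (∀ v, maxima K.n K.P v ≤ M) → ∀ v, maxima L.n L.P v ≤ M := by
  set N : Matrix (Fin 3) (Fin 3) ℝ := LinearMap.toMatrix' A with hN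
  have hdet : 0 < N.det := by rw [hN, LinearMap.det_toMatrix']; exact hA
  have hAN : ∀ x, A x = N *ᵥ x := by
    intro x
    rw [hN, LinearMap.toMatrix'_mulVec]
  have h1 := (good_all N hdet.ne').1 hdet K (mapM K N hdet.ne') (im_mapM _ _ _)
  have h2 := trans_equiv (mapM K N hdet.ne') b
  refine ⟨trans (mapM K N hdet.ne') b, rfl, fun i => ?_, h1.trans h2, ?_⟩
  · rw [hAN]; rfl
  · intro M hM v
    have key : maxima K.n (fun i => N *ᵥ K.P i + b) v = maxima K.n K.P (v ᵥ* N) := by
      unfold maxima
      congr 1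
      ext i
      simp only [Set.mem_ofPred_eq, dotProduct_add, Matrix.dotProduct_mulVec, add_lt_add_iff_right]
    show maxima K.n (fun i => N *ᵥ K.P i + b) v ≤ M
    rw [key]
    exact hM _

end Pool.Agent.helper82.SB
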