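import Mathlib
import Pool.Agent.helper38.SB.Affine

/-! [SB-M] Placing `L` at the port of `K`. helper38 -/

set_option autoImplicit false

namespace Pool.Agent.helper82.SB

open Matrix Filter Topology

namespace MM

/-- matrix with given columns -/
def cols (u v w : E3) : Matrix (Fin 3) (Fin 3) ℝ := !![u 0, v 0, w 0; u 1, v 1, w 1; u 2, v 2, w 2]

theorem det_cols (u v w : E3) : (cols u v w).det = det3 u v w := by
  rw [Matrix.det_fin_three]
  simp [cols, det3]
  ring

theorem cols_mulVec (u v w k : E3) : cols u v w *ᵥ k = k 0 • u + k 1 • v + k 2 • w := by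
  ext i
  fin_cases i <;> simp [cols, Matrix.mulVec, dotProduct, Fin.sum_univ_three] <;> ring

/-- coordinates in a basis -/
noncomputable def co (a g b : E3) (z : E3) : E3 := (cols a g b)⁻¹ *ᵥ z

theorem co_spec {a g b : E3} (h : det3 a g b ≠ 0) (z : E3) :
    co a g b z 0 • a + co a g b z 1 • g + co a g b z 2 • b = z := by
  have hu : IsUnit (cols a g b).det := isUnit_iff_ne_zero.2 (by rw [det_cols]; exact h)
  rw [← cols_mulVec, co, Matrix.mulVec_mulVec, Matrix.mul_nonsing_inv _ hu, Matrix.one_mulVec]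

/-- linear map with given values on a basis -/
theorem exists_lin {a g b : E3} (h : det3 a g b ≠ 0) (u v w : E3) : ∃ A : E3 →ₗ[ℝ] E3,
    LinearMap.det A = det3 u v w / det3 a g b ∧ A a = u ∧ A g = v ∧ A b = w ∧
    ∀ z, A z = co a g b z 0 • u + co a g b z 1 • v + co a g b z 2 • w := by
  have hd : (cols a g b).det ≠ 0 := by rw [det_cols]; exact h
  have hu : IsUnit (cols a g b).det := isUnit_iff_ne_zero.2 hd
  have hval : ∀ z, Matrix.toLin' (cols u v w * (cols a g b)⁻¹) z =
      co a g b z 0 • u + co a g b z 1 • v + co a g b z 2 • w := by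
    intro z
    rw [Matrix.toLin'_apply, ← Matrix.mulVec_mulVec, cols_mulVec]
    rfl
  have hcol : ∀ k : E3, co a g b (k 0 • a + k 1 • g + k 2 • b) = k := by
    intro k
    rw [← cols_mulVec, co, Matrix.mulVec_mulVec, Matrix.nonsing_inv_mul _ hu, Matrix.one_mulVec]
  refine ⟨Matrix.toLin' (cols u v w * (cols a g b)⁻¹), ?_, ?_, ?_, ?_, hval⟩
  · rw [LinearMap.det_toLin', Matrix.det_mul, Matrix.det_nonsing_inv, det_cols, det_cols,
      Ring.inverse_eq_inv', div_eq_mul_inv]
  · have := hcol ![1, 0, 0]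
    simp at this
    rw [hval, this]; simp
  · have := hcol ![0, 1, 0]
    simp at this
    rw [hval, this]; simp
  · have := hcol ![0, 0, 1]
    simp at this
    rw [hval, this]; simp

/-- covector with given values on a basis -/
theorem exists_cov {a g b : E3} (h : det3 a g b ≠ 0) (α β γ : ℝ) : ∃ w : E3,
    w ⬝ᵥ a = α ∧ w ⬝ᵥ g = β ∧ w ⬝ᵥ b = γ := by
  have hd : (cols a g b).det ≠ 0 := by rw [det_cols]; exact h
  have hu : IsUnit (cols a g b).det := isUnit_iff_ne_zero.2 hd
  set w : E3 := ![α, β, γ] ᵥ* (cols a g b)⁻¹ with hw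
  have key : ∀ k : E3, w ⬝ᵥ (k 0 • a + k 1 • g + k 2 • b) = ![α, β, γ] ⬝ᵥ k := by
    intro k
    rw [← cols_mulVec, hw, ← Matrix.dotProduct_mulVec, Matrix.mulVec_mulVec,
      Matrix.nonsing_inv_mul _ hu, Matrix.one_mulVec]
  refine ⟨w, ?_, ?_, ?_⟩
  · have := key ![1, 0, 0]
    simpa using this
  · have := key ![0, 1, 0]
    simpa using this
  · have := key ![0, 0, 1]
    simpa using this

/-- reduction of the index -/
theorem red (K : PolyKnot) (i : ℤ) : ∃ j : ℤ, 0 ≤ j ∧ j < K.n ∧ ∀ d, K.P (i + d) = K.P (j + d) := by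
  have hn : (0 : ℤ) < K.n := by have := K.three; omega
  refine ⟨i % K.n, Int.emod_nonneg _ hn.ne', Int.emod_lt_of_pos _ hn, fun d => ?_⟩
  have hp : Function.Periodic K.P (K.n : ℤ) := K.per
  have h := hp.int_mul (i / K.n) (i % K.n + d)
  rw [← h]
  congr 1
  rw [Int.cast_id]
  have := Int.emod_add_mul_ediv i K.n
  linarith [mul_comm (K.n : ℤ) (i / K.n)]

theorem det3_place (a g b : E3) (s t : ℝ) : det3 (s • b) (-g) (t • a) = s * t * det3 a g b := by
  simp [det3]
  ring

theorem dot_seg {w x y z : E3} (hz : z ∈ segment ℝ x y) : ∃ τ : ℝ, 0 ≤ τ ∧ τ ≤ 1 ∧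
    z = (1 - τ) • x + τ • y ∧ w ⬝ᵥ z = (1 - τ) * (w ⬝ᵥ x) + τ * (w ⬝ᵥ y) := by
  obtain ⟨a, b, ha, hb, hab, rfl⟩ := hz
  have : a = 1 - b := by linarith
  subst this
  exact ⟨b, hb, by linarith, rfl, by
    rw [dotProduct_add, dotProduct_smul, dotProduct_smul, smul_eq_mul, smul_eq_mul]⟩

end MM

open MM

/-- SB-M. Placing `L` at the port of `K`. -/
theorem exists_place (L : PolyKnot) (hL : Exposed L) (htor : tor L ≠ 0) :
    ∃ κ : ℝ, 0 < κ ∧ ∀ K : PolyKnot, Port K κ → 0 < tor L * tor K →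
      ∃ L' : PolyKnot, L'.n = L.n ∧ Equivalent L L' ∧
        (∀ M, (∀ v, maxima L.n L.P v ≤ M) → ∀ v, maxima L'.n L'.P v ≤ M) ∧
        L'.P 0 = K.P (-1) ∧ L'.P (-1) = K.P 0 ∧
        (∃ s t : ℝ, 0 < s ∧ 0 < t ∧ edge L'.P (-2) = s • edge K.P 0 ∧
          edge L'.P 0 = t • edge K.P (-2)) ∧
        ∃ C : Set E3, IsCompact C ∧ Convex ℝ C ∧ (interior C).Nonempty ∧
          K.trace ∩ C = segment ℝ (K.P (-1)) (K.P 0) ∧ L'.trace ⊆ C ∧
          L'.trace ∩ frontier C = segment ℝ (K.P (-1)) (K.P 0) := by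
  obtain ⟨hn4, ν, hν0, hν⟩ := hL
  have hn3 := L.three
  set a2 := edge L.P (-2) with ha2
  set g2 := edge L.P (-1) with hg2
  set b2 := edge L.P 0 with hb2
  have htor' : det3 a2 g2 b2 ≠ 0 := htor
  -- heights
  have hPm1 : L.P (-1) = L.P (L.n - 1) := by
    have e : (L.n : ℤ) - 1 = -1 + L.n := by ring
    rw [e, L.per]
  have hPm2 : L.P (-2) = L.P (L.n - 2) := by
    have e : (L.n : ℤ) - 2 = -2 + L.n := by ring
    rw [e, L.per]
  have hνm1 : ν ⬝ᵥ L.P (-1) = ν ⬝ᵥ L.P 0 := by
    have h : ν ⬝ᵥ (L.P 0 - L.P (-1)) = 0 := by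
      have : edge L.P (-1) = L.P 0 - L.P (-1) := by unfold edge; norm_num
      rw [← this]; exact hν0
    rw [dotProduct_sub] at h; linarith
  have hνb : 0 < ν ⬝ᵥ b2 := by
    have h := hν 1 (by norm_num) (by omega)
    have e : b2 = L.P 1 - L.P 0 := by rw [hb2]; unfold edge; norm_num
    rw [e, dotProduct_sub]; linarith
  have hνa : ν ⬝ᵥ a2 < 0 := by
    have h := hν (L.n - 2) (by omega) (by omega)
    have e : a2 = L.P (-1) - L.P (-2) := by rw [ha2]; unfold edge; norm_num
    rw [e, dotProduct_sub, hνm1, hPm2]; linarith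
  have hheight : ∀ i : ℤ, 0 ≤ ν ⬝ᵥ (L.P i - L.P 0) ∧
      (ν ⬝ᵥ (L.P i - L.P 0) = 0 → (L.P i = L.P 0 ∨ L.P i = L.P (-1)) ∧
        (ν ⬝ᵥ (L.P (i + 1) - L.P 0) = 0 → L.P i = L.P (-1) ∧ L.P (i + 1) = L.P 0)) := by
    intro i
    obtain ⟨j, hj0, hjn, hj⟩ := red L i
    have e0 := hj 0
    have e1 := hj 1
    rw [add_zero, add_zero] at e0
    rw [e0, e1]
    have hv : ∀ j : ℤ, 0 < j → j < L.n - 1 → 0 < ν ⬝ᵥ (L.P j - L.P 0) := by
      intro j h1 h2
      have := hν j h1 h2
      rw [dotProduct_sub]; linarith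
    have hz0 : ν ⬝ᵥ (L.P 0 - L.P 0) = 0 := by simp
    have hzn : ν ⬝ᵥ (L.P (L.n - 1) - L.P 0) = 0 := by
      rw [← hPm1, dotProduct_sub, hνm1]; ring
    rcases eq_or_lt_of_le hj0 with h | h
    · subst h
      refine ⟨hz0.ge, fun _ => ⟨Or.inl rfl, fun h1 => ?_⟩⟩
      have := hv (0 + 1) (by norm_num) (by omega)
      exact absurd h1 this.ne'
    · by_cases h' : j = L.n - 1
      · subst h'
        refine ⟨hzn.ge, fun _ => ⟨Or.inr hPm1.symm, fun _ => ⟨hPm1.symm, ?_⟩⟩⟩
        have e : (L.n : ℤ) - 1 + 1 = 0 + L.n := by ring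
        rw [e, L.per]
      · have := hv j h (by omega)
        exact ⟨this.le, fun h2 => absurd h2 this.ne'⟩
  -- constants
  set k : ℤ → E3 := fun i => co a2 g2 b2 (L.P i - L.P 0) with hk
  set B : ℝ := ∑ i ∈ Finset.range L.n, |k (i : ℤ) 1| with hB
  have hB0 : 0 ≤ B := Finset.sum_nonneg (fun i _ => abs_nonneg _)
  have hkred : ∀ i : ℤ, ∃ j ∈ Finset.range L.n, k i = k (j : ℤ) := by
    intro i
    obtain ⟨j, hj0, hjn, hj⟩ := red L i
    have e0 := hj 0
    rw [add_zero, add_zero] at e0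
    refine ⟨j.toNat, Finset.mem_range.2 (by omega), ?_⟩
    have : ((j.toNat : ℕ) : ℤ) = j := Int.toNat_of_nonneg hj0
    rw [this, hk]
    simp only [e0]
  have hkB : ∀ i : ℤ, |k i 1| ≤ B := by
    intro i
    obtain ⟨j, hj, e⟩ := hkred i
    rw [e]
    exact Finset.single_le_sum (f := fun j : ℕ => |k (j : ℤ) 1|) (fun _ _ => abs_nonneg _) hj
  refine ⟨1 / (2 * (B + 1)), by positivity, fun K hK hTT => ?_⟩
  obtain ⟨hKn, R, hR, hgR, hport⟩ := hK
  set a' := edge K.P (-2) with ha'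
  set g := edge K.P (-1) with hg
  set b' := edge K.P 0 with hb'
  set x := K.P (-1) with hx
  set y := K.P 0 with hy
  have hgxy : g = y - x := by rw [hg, hx, hy]; unfold edge; norm_num
  have htK : det3 a' g b' ≠ 0 := by
    intro h
    have : tor K = 0 := h
    rw [this, mul_zero] at hTT
    exact lt_irrefl _ hTT
  obtain ⟨nH, hH1, hH2, hH3⟩ := exists_cov htK 1 0 (-1)
  have hnH : nH ≠ 0 := by
    intro h
    rw [h, zero_dotProduct] at hH1
    norm_num at hH1
  -- the small constant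
  set S : ℝ := ∑ i ∈ Finset.range L.n,
    (|k (i : ℤ) 0| * ((-(ν ⬝ᵥ a2)) * ‖b'‖) + |k (i : ℤ) 2| * ((ν ⬝ᵥ b2) * ‖a'‖)) with hS
  have hterm : ∀ i : ℤ, 0 ≤ |k i 0| * ((-(ν ⬝ᵥ a2)) * ‖b'‖) + |k i 2| * ((ν ⬝ᵥ b2) * ‖a'‖) := by
    intro i
    have h1 : 0 ≤ -(ν ⬝ᵥ a2) := by linarith
    have h2 := hνb.le
    positivity
  have hS0 : 0 ≤ S := Finset.sum_nonneg (fun i _ => hterm i)
  have hkS : ∀ i : ℤ, |k i 0| * ((-(ν ⬝ᵥ a2)) * ‖b'‖) + |k i 2| * ((ν ⬝ᵥ b2) * ‖a'‖) ≤ S := by
    intro i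
    obtain ⟨j, hj, e⟩ := hkred i
    rw [e]
    exact Finset.single_le_sum (f := fun j : ℕ => |k (j : ℤ) 0| * ((-(ν ⬝ᵥ a2)) * ‖b'‖) +
      |k (j : ℤ) 2| * ((ν ⬝ᵥ b2) * ‖a'‖)) (fun _ _ => hterm _) hj
  set c : ℝ := R / (2 * (S + 1)) with hc
  have hc0 : 0 < c := by positivity
  have hcS : c * S < R / 2 := by
    rw [hc, div_mul_eq_mul_div, div_lt_div_iff₀ (by positivity) (by norm_num)]
    nlinarith
  set s : ℝ := -(c * (ν ⬝ᵥ a2)) with hs
  set t : ℝ := c * (ν ⬝ᵥ b2) with ht
  have hs0 : 0 < s := by rw [hs]; nlinarith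
  have ht0 : 0 < t := by rw [ht]; positivity
  obtain ⟨A, hAdet, hAa, hAg, hAb, hAz⟩ := exists_lin htor' (s • b') (-g) (t • a')
  have hAdet' : 0 < LinearMap.det A := by
    rw [hAdet, det3_place]
    have h1 : 0 < det3 a' g b' / det3 a2 g2 b2 := by
      have h2 : 0 < det3 a2 g2 b2 * det3 a' g b' := hTT
      rcases pos_and_pos_or_neg_and_neg_of_mul_pos h2 with ⟨h3, h4⟩ | ⟨h3, h4⟩
      · positivity
      · exact div_pos_of_neg_of_neg h4 h3
    rw [mul_div_assoc]
    positivity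
  obtain ⟨L', hL'n, hL'P, hL'eq, hL'max⟩ := exists_affine L A hAdet' (x - A (L.P 0))
  have hP' : ∀ i, L'.P i = x + A (L.P i - L.P 0) := by
    intro i; rw [hL'P, map_sub]; abel
  have hedge : ∀ i, edge L'.P i = A (edge L.P i) := by
    intro i
    unfold edge
    rw [hP', hP', map_sub, map_sub, map_sub]; abel
  -- heights of `L'`
  have hheightA : ∀ z, nH ⬝ᵥ (A z) = c * (ν ⬝ᵥ z) := by
    intro z
    have e := co_spec htor' z
    rw [hAz z]
    nth_rewrite 4 [← e]
    simp only [dotProduct_add, dotProduct_smul, dotProduct_neg, smul_eq_mul, hH1, hH2, hH3, hν0]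
    rw [hs, ht]; ring
  have hnorm : ∀ i, ‖A (L.P i - L.P 0)‖ < R := by
    intro i
    rw [hAz]
    have h1 : ‖k i 0 • (s • b') + k i 1 • (-g) + k i 2 • (t • a')‖ ≤
        |k i 0| * (s * ‖b'‖) + |k i 1| * ‖g‖ + |k i 2| * (t * ‖a'‖) := by
      calc _ ≤ ‖k i 0 • (s • b')‖ + ‖k i 1 • (-g)‖ + ‖k i 2 • (t • a')‖ := norm_add₃_le
        _ = _ := by
          have e1 : ‖k i 0 • (s • b')‖ = |k i 0| * (s * ‖b'‖) := by
            rw [norm_smul, norm_smul, Real.norm_eq_abs, Real.norm_eq_abs, abs_of_pos hs0]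
          have e2 : ‖k i 1 • (-g)‖ = |k i 1| * ‖g‖ := by
            rw [norm_smul, norm_neg, Real.norm_eq_abs]
          have e3 : ‖k i 2 • (t • a')‖ = |k i 2| * (t * ‖a'‖) := by
            rw [norm_smul, norm_smul, Real.norm_eq_abs, Real.norm_eq_abs, abs_of_pos ht0]
          rw [e1, e2, e3]
    refine lt_of_le_of_lt h1 ?_
    have h2 : |k i 0| * (s * ‖b'‖) + |k i 2| * (t * ‖a'‖) ≤ c * S := by
      have := mul_le_mul_of_nonneg_left (hkS i) hc0.le
      calc _ = c * (|k i 0| * ((-(ν ⬝ᵥ a2)) * ‖b'‖) + |k i 2| * ((ν ⬝ᵥ b2) * ‖a'‖)) := by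
            rw [hs, ht]; ring
        _ ≤ _ := this
    have h3 : |k i 1| * ‖g‖ ≤ R / 2 := by
      calc |k i 1| * ‖g‖ ≤ B * (1 / (2 * (B + 1)) * R) := by
            gcongr
            exact hkB i
        _ = (B / (B + 1)) * (R / 2) := by field_simp
        _ ≤ 1 * (R / 2) := by
            gcongr
            rw [div_le_one (by positivity)]; linarith
        _ = R / 2 := one_mul _
    linarith
  have hL'0 : L'.P 0 = x := by rw [hP', sub_self, map_zero, add_zero]
  have hL'm1 : L'.P (-1) = y := by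
    rw [hP']
    have : L.P (-1) - L.P 0 = -g2 := by rw [hg2]; unfold edge; norm_num
    rw [this, map_neg, hAg, hgxy]; abel
  -- the convex body
  set C : Set E3 := {z | 0 ≤ nH ⬝ᵥ (z - x)} ∩ Metric.closedBall x R with hC
  have hcont : Continuous fun z : E3 => nH ⬝ᵥ (z - x) := by
    simp only [dot_expand, Pi.sub_apply]
    fun_prop
  have hCint : ∀ z, 0 < nH ⬝ᵥ (z - x) → ‖z - x‖ < R → z ∈ interior C := by
    intro z h1 h2
    rw [mem_interior]
    refine ⟨{z | 0 < nH ⬝ᵥ (z - x)} ∩ Metric.ball x R, ?_, ?_, ?_⟩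
    · rintro w ⟨hw1, hw2⟩
      have hw1' : 0 < nH ⬝ᵥ (w - x) := hw1
      exact ⟨hw1'.le, Metric.ball_subset_closedBall hw2⟩
    · exact (isOpen_lt continuous_const hcont).inter Metric.isOpen_ball
    · exact ⟨h1, by rw [Metric.mem_ball, dist_eq_norm]; exact h2⟩
  have hCconv : Convex ℝ C := by
    apply Convex.inter _ (convex_closedBall _ _)
    intro u hu v hv p q hp hq hpq
    show 0 ≤ nH ⬝ᵥ (p • u + q • v - x)
    have e : p • u + q • v - x = p • (u - x) + q • (v - x) := by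
      have : x = (p + q) • x := by rw [hpq, one_smul]
      nth_rewrite 1 [this]
      rw [add_smul, smul_sub, smul_sub]; abel
    rw [e, dotProduct_add, dotProduct_smul, dotProduct_smul, smul_eq_mul, smul_eq_mul]
    have hu' : 0 ≤ nH ⬝ᵥ (u - x) := hu
    have hv' : 0 ≤ nH ⬝ᵥ (v - x) := hv
    positivity
  have hCcl : IsClosed C := (isClosed_le continuous_const hcont).inter Metric.isClosed_closedBall
  have hCcpt : IsCompact C := (isCompact_closedBall x R).inter_left
    (isClosed_le continuous_const hcont)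
  have hnHsq : 0 < nH ⬝ᵥ nH := by
    have h0 : nH ⬝ᵥ nH ≠ 0 := fun h => hnH (dotProduct_self_eq_zero.mp h)
    have h1 : 0 ≤ nH ⬝ᵥ nH := by
      rw [dot_expand]; nlinarith [sq_nonneg (nH 0), sq_nonneg (nH 1), sq_nonneg (nH 2)]
    exact lt_of_le_of_ne h1 (Ne.symm h0)
  have hgnorm : ‖y - x‖ < R := by
    rw [← hgxy]
    refine lt_of_le_of_lt hgR ?_
    have : 1 / (2 * (B + 1)) < 1 := by
      rw [div_lt_one (by positivity)]; linarith
    calc 1 / (2 * (B + 1)) * R < 1 * R := by gcongr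
      _ = R := one_mul _
  have hxC : x ∈ C := by
    refine ⟨?_, ?_⟩
    · show 0 ≤ nH ⬝ᵥ (x - x)
      simp
    · exact Metric.mem_closedBall_self hR.le
  have hyC : y ∈ C := by
    refine ⟨?_, ?_⟩
    · show 0 ≤ nH ⬝ᵥ (y - x)
      rw [← hgxy, hH2]
    · rw [Metric.mem_closedBall, dist_eq_norm]; exact hgnorm.le
  have hsegC : segment ℝ x y ⊆ C := hCconv.segment_subset hxC hyC
  have hvert : ∀ i, L'.P i ∈ C := by
    intro i
    refine ⟨?_, ?_⟩
    · show 0 ≤ nH ⬝ᵥ (L'.P i - x)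
      rw [hP', add_sub_cancel_left, hheightA]
      exact mul_nonneg hc0.le (hheight i).1
    · rw [Metric.mem_closedBall, dist_eq_norm, hP', add_sub_cancel_left]
      exact (hnorm i).le
  have htrC : L'.trace ⊆ C := by
    intro z hz
    obtain ⟨i, hi⟩ := Set.mem_iUnion.1 hz
    exact hCconv.segment_subset (hvert i) (hvert (i + 1)) hi
  refine ⟨L', hL'n, hL'eq, hL'max, hL'0, hL'm1, ⟨s, t, hs0, ht0, ?_, ?_⟩, C, hCcpt, hCconv, ?_, ?_,
    htrC, ?_⟩
  · rw [hedge]; exact hAa
  · rw [hedge]; exact hAb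
  · -- interior
    refine ⟨x + (R / (2 * (‖nH‖ + 1))) • nH, hCint _ ?_ ?_⟩
    · rw [add_sub_cancel_left, dotProduct_smul, smul_eq_mul]
      positivity
    · rw [add_sub_cancel_left, norm_smul, Real.norm_eq_abs, abs_of_pos (by positivity)]
      calc R / (2 * (‖nH‖ + 1)) * ‖nH‖ = (R / 2) * (‖nH‖ / (‖nH‖ + 1)) := by field_simp
        _ ≤ (R / 2) * 1 := by
            gcongr
            rw [div_le_one (by positivity)]; linarith
        _ < R := by linarith
  · -- trace of `K`
    apply Set.Subset.antisymm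
    · rintro z ⟨hz, hzC⟩
      obtain ⟨i, hi⟩ := Set.mem_iUnion.1 hz
      obtain ⟨j, hj0, hjn, hj⟩ := red K i
      have e0 := hj 0
      have e1 := hj 1
      rw [add_zero, add_zero] at e0
      rw [e0, e1] at hi
      have hz0 : 0 ≤ nH ⬝ᵥ (z - x) := hzC.1
      by_cases h0 : j = 0
      · subst h0
        obtain ⟨τ, hτ0, hτ1, hzτ, hdot⟩ := dot_seg (w := nH) hi
        have hb1 : K.P (0 + 1) = y + b' := by
          rw [hb', hy]; unfold edge; abel
        rw [hb1, dotProduct_add, hH3] at hdot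
        have hyx : nH ⬝ᵥ y = nH ⬝ᵥ x := by
          have := hH2
          rw [hgxy, dotProduct_sub] at this; linarith
        rw [dotProduct_sub, hdot] at hz0
        rw [hyx] at hz0
        have : τ = 0 := by nlinarith
        rw [this] at hzτ
        have : z = y := by rw [hzτ]; simp [hy]
        rw [this]; exact right_mem_segment ℝ x y
      · by_cases h1 : j = K.n - 1
        · subst h1
          have ex : K.P (K.n - 1) = x := by
            have e : (K.n : ℤ) - 1 = -1 + K.n := by ring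
            rw [e, K.per]
          have ey : K.P (K.n - 1 + 1) = y := by
            have e : (K.n : ℤ) - 1 + 1 = 0 + K.n := by ring
            rw [e, K.per]
          rw [ex, ey] at hi
          exact hi
        · by_cases h2 : j = K.n - 2
          · subst h2
            have ex : K.P (K.n - 2 + 1) = x := by
              have e : (K.n : ℤ) - 2 + 1 = -1 + K.n := by ring
              rw [e, K.per]
            have ez : K.P (K.n - 2) = x - a' := by
              have e : (K.n : ℤ) - 2 = -2 + K.n := by ring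
              have e' : a' = K.P (-2 + 1) - K.P (-2) := rfl
              have e'' : (-2 : ℤ) + 1 = -1 := by norm_num
              rw [e, K.per, e', e'', hx]
              abel
            rw [ex, ez] at hi
            obtain ⟨τ, hτ0, hτ1, hzτ, hdot⟩ := dot_seg (w := nH) hi
            rw [dotProduct_sub, hH1] at hdot
            rw [dotProduct_sub, hdot] at hz0
            have : τ = 1 := by nlinarith
            rw [this] at hzτ
            have : z = x := by rw [hzτ]; simp
            rw [this]; exact left_mem_segment ℝ x y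
          · exfalso
            have := hport j (by omega) (by omega)
            exact Set.disjoint_left.1 this hi hzC.2
    · intro z hz
      refine ⟨Set.mem_iUnion.2 ⟨-1, ?_⟩, hsegC hz⟩
      show z ∈ segment ℝ (K.P (-1)) (K.P (-1 + 1))
      norm_num
      exact hz
  · -- frontier
    apply Set.Subset.antisymm
    · rintro z ⟨hz, hzF⟩
      have hzC : z ∈ C := hCcl.frontier_subset hzF
      obtain ⟨i, hi⟩ := Set.mem_iUnion.1 hz
      have hball : ‖z - x‖ < R := by
        have h1 : L'.P i ∈ Metric.ball x R := by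
          rw [Metric.mem_ball, dist_eq_norm, hP', add_sub_cancel_left]; exact hnorm i
        have h2 : L'.P (i + 1) ∈ Metric.ball x R := by
          rw [Metric.mem_ball, dist_eq_norm, hP', add_sub_cancel_left]; exact hnorm (i + 1)
        have h3 := (convex_ball x R).segment_subset h1 h2 hi
        rw [Metric.mem_ball, dist_eq_norm] at h3
        exact h3
      have hz0 : nH ⬝ᵥ (z - x) = 0 := by
        have h1 : 0 ≤ nH ⬝ᵥ (z - x) := hzC.1
        by_contra hne
        have h2 : 0 < nH ⬝ᵥ (z - x) := lt_of_le_of_ne h1 (Ne.symm hne)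
        exact hzF.2 (hCint z h2 hball)
      obtain ⟨τ, hτ0, hτ1, hzτ, hdot⟩ := dot_seg (w := nH) hi
      rw [dotProduct_sub, hdot] at hz0
      have hA1 : nH ⬝ᵥ L'.P i = nH ⬝ᵥ x + c * (ν ⬝ᵥ (L.P i - L.P 0)) := by
        rw [hP', dotProduct_add, hheightA]
      have hA2 : nH ⬝ᵥ L'.P (i + 1) = nH ⬝ᵥ x + c * (ν ⬝ᵥ (L.P (i + 1) - L.P 0)) := by
        rw [hP', dotProduct_add, hheightA]
      rw [hA1, hA2] at hz0
      have hh1 := (hheight i).1
      have hh2 := (hheight (i + 1)).1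
      set h1 := ν ⬝ᵥ (L.P i - L.P 0) with hh1'
      set h2 := ν ⬝ᵥ (L.P (i + 1) - L.P 0) with hh2'
      have hsum : (1 - τ) * h1 + τ * h2 = 0 := by
        have : c * ((1 - τ) * h1 + τ * h2) = 0 := by linarith
        rcases mul_eq_zero.1 this with h | h
        · exact absurd h hc0.ne'
        · exact h
      have p1 : 0 ≤ (1 - τ) * h1 := mul_nonneg (by linarith) hh1
      have p2 : 0 ≤ τ * h2 := mul_nonneg hτ0 hh2
      have q1 : (1 - τ) * h1 = 0 := by linarith
      have q2 : τ * h2 = 0 := by linarith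
      have himg : ∀ j, (L.P j = L.P 0 ∨ L.P j = L.P (-1)) → L'.P j ∈ segment ℝ x y := by
        intro j hj
        rcases hj with hj | hj
        · have : L'.P j = x := by rw [hP', hj, sub_self, map_zero, add_zero]
          rw [this]; exact left_mem_segment ℝ x y
        · have : L'.P j = y := by rw [← hL'm1, hP', hP', hj]
          rw [this]; exact right_mem_segment ℝ x y
      rcases mul_eq_zero.1 q1 with h | h
      · have hτ : τ = 1 := by linarith
        have hh : h2 = 0 := by rw [hτ, one_mul] at q2; exact q2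
        have hz' : z = L'.P (i + 1) := by rw [hzτ, hτ]; simp
        rw [hz']
        exact himg _ ((hheight (i + 1)).2 hh).1
      · rcases mul_eq_zero.1 q2 with h' | h'
        · have hz' : z = L'.P i := by rw [hzτ, h']; simp
          rw [hz']
          exact himg _ ((hheight i).2 h).1
        · obtain ⟨e1, e2⟩ := ((hheight i).2 h).2 h'
          have e1' : L'.P i = y := by rw [← hL'm1, hP', hP', e1]
          have e2' : L'.P (i + 1) = x := by rw [hP', e2, sub_self, map_zero, add_zero]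
          rw [e1', e2', segment_symm] at hi
          exact hi
    · intro z hz
      have hz0 : nH ⬝ᵥ (z - x) = 0 := by
        obtain ⟨τ, hτ0, hτ1, hzτ, hdot⟩ := dot_seg (w := nH) hz
        have hyx : nH ⬝ᵥ y = nH ⬝ᵥ x := by
          have := hH2
          rw [hgxy, dotProduct_sub] at this; linarith
        rw [dotProduct_sub, hdot]
        have hy' : nH ⬝ᵥ K.P 0 = nH ⬝ᵥ x := hyx
        have hx' : nH ⬝ᵥ K.P (-1) = nH ⬝ᵥ x := rfl
        rw [hyx]; ring
      refine ⟨Set.mem_iUnion.2 ⟨-1, ?_⟩, subset_closure (hsegC hz), ?_⟩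
      · show z ∈ segment ℝ (L'.P (-1)) (L'.P (-1 + 1))
        have : (-1 : ℤ) + 1 = 0 := by norm_num
        rw [this, hL'0, hL'm1, segment_symm]
        exact hz
      · intro hint
        have hcz : Continuous fun ε : ℝ => z - ε • nH := by fun_prop
        have h1 : ∀ᶠ ε in 𝓝 (0 : ℝ), z - ε • nH ∈ C := by
          apply hcz.continuousAt.eventually
          simpa using mem_interior_iff_mem_nhds.1 hint
        have h2 : ∀ᶠ ε in 𝓝[>] (0 : ℝ), z - ε • nH ∈ C := h1.filter_mono nhdsWithin_le_nhds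
        obtain ⟨ε, hε, hε0⟩ := (h2.and self_mem_nhdsWithin).exists
        have h3 : 0 ≤ nH ⬝ᵥ (z - ε • nH - x) := hε.1
        have e : z - ε • nH - x = (z - x) - ε • nH := by abel
        rw [e, dotProduct_sub, hz0, dotProduct_smul, smul_eq_mul] at h3
        have hε0' : 0 < ε := hε0
        nlinarith [mul_pos hε0' hnHsq]

end Pool.Agent.helper82.SB
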